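import Mathlib
import Pool.Agent.H28.Schur

set_option autoImplicit false

namespace Pool.Agent.Results.MP_5f9057_an.Distinct

open Polynomial Finset Filter Topology

/-- only real zeros (the zero polynomial counts) -/
def RealRooted (f : ℝ[X]) : Prop := f = 0 ∨ ∀ z : ℂ, aeval z f = 0 → z.im = 0

/-- the set of multiplier sequences of a sequence of polynomials -/
def MS (Q : ℕ → ℝ[X]) : Set (ℕ → ℝ) :=
  {γ | ∀ (n : ℕ) (a : ℕ → ℝ), RealRooted (∑ k ∈ range (n + 1), a k • Q k) →
    RealRooted (∑ k ∈ range (n + 1), (a k * γ k) • Q k)}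

/-- the simple sets `P j` -/
noncomputable def P (j k : ℕ) : ℝ[X] := if k ≤ j then ∑ i ∈ range (k + 1), X ^ i else X ^ k

lemma coeff_P (j k i : ℕ) : (P j k).coeff i = if i = k ∨ (i ≤ k ∧ k ≤ j) then 1 else 0 := by
  unfold P; split_ifs with h1 h2 h2
  · simp [coeff_X_pow]; omega
  · simp [coeff_X_pow]; omega
  · simp [coeff_X_pow]; omega
  · simp [coeff_X_pow]; omega

lemma coeff_sum (j n : ℕ) (c : ℕ → ℝ) (i : ℕ) : (∑ k ∈ range (n + 1), c k • P j k).coeff i =
    ∑ k ∈ range (n + 1), if i = k ∨ (i ≤ k ∧ k ≤ j) then c k else 0 := by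
  simp only [finset_sum_coeff, coeff_smul, coeff_P, smul_eq_mul, mul_ite, mul_one, mul_zero]

lemma quad (f : ℝ[X]) (a b c : ℝ) (hf : f = C a * X ^ 2 + C b * X + C c) (h : b ^ 2 < 4 * a * c) :
    ¬ RealRooted f := by
  have a0 : a ≠ 0 := by rintro rfl; nlinarith [sq_nonneg b]
  rintro (h0 | h0)
  · have := congrArg (coeff · 2) (hf.symm.trans h0); simp [coeff_X] at this; exact a0 this
  · set s := √(4 * a * c - b ^ 2)
    have s2 : s ^ 2 = 4 * a * c - b ^ 2 := Real.sq_sqrt (by linarith)
    have s0 : 0 < s := Real.sqrt_pos.2 (by linarith)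
    have := h0 ((-b / (2 * a) : ℝ) + (s / (2 * a) : ℝ) * Complex.I) (by
      have a1 : (a : ℂ) ≠ 0 := by exact_mod_cast a0
      have s3 : (s : ℂ) ^ 2 = 4 * a * c - b ^ 2 := by exact_mod_cast s2
      simp only [hf, map_add, map_mul, aeval_C, map_pow, aeval_X, Complex.coe_algebraMap]
      push_cast; field_simp
      linear_combination (s : ℂ) ^ 2 * Complex.I_sq - s3)
    simp [a0, s0.ne', -Complex.ofReal_div] at this

lemma geom (m : ℕ) (hm : 2 ≤ m) (c : ℝ) (hc : c ≠ 0) :
    ¬ RealRooted (c • ∑ i ∈ range (m + 1), X ^ i) := by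
  rintro (h0 | h0)
  · have := congrArg (coeff · 0) h0; simp [coeff_X_pow, hc] at this
  · have hp := Complex.isPrimitiveRoot_exp (m + 1) (by omega)
    set z := Complex.exp (2 * Real.pi * Complex.I / (m + 1 : ℕ))
    have := h0 z (by simp [hp.geom_sum_eq_zero (by omega)])
    obtain ⟨x, hx⟩ : ∃ x : ℝ, z = x := ⟨z.re, by apply Complex.ext <;> simp [this]⟩
    have h1 : ‖z‖ = 1 := hp.norm'_eq_one (by omega)
    have h2 : z ^ 2 = 1 := by
      rw [hx, Complex.norm_real, Real.norm_eq_abs] at h1
      rw [hx, ← Complex.ofReal_pow, ← sq_abs, h1]; simp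
    have := Nat.le_of_dvd two_pos (hp.dvd_of_pow_eq_one 2 h2)
    omega

lemma scale (f : ℝ[X]) (hf : RealRooted f) (s : ℝ) (hs : s ≠ 0) :
    RealRooted (f.comp (C s * X)) := by
  rcases hf with rfl | hf
  · left; simp
  · right; intro z hz
    rw [aeval_comp] at hz
    simpa [hs] using hf _ hz

lemma abel (A : ℕ → ℝ) (j m : ℕ) (hm : m ≤ j) :
    ∑ k ∈ range m, (A k - A (k + 1)) • P j k + A m • P j m = ∑ k ∈ range (m + 1), A k • X ^ k := by
  induction m with
  | zero => simp [P]
  | succ m ih =>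
    rw [sum_range_succ, sum_range_succ _ (m + 1), ← ih (by omega)]
    simp only [P, if_pos hm, if_pos (show m ≤ j by omega), sum_range_succ _ (m + 1)]
    module

lemma expand (A : ℕ → ℝ) (j n : ℕ) :
    ∑ k ∈ range (j + n + 1), (if k < j then A k - A (k + 1) else A k) • P j k =
      ∑ k ∈ range (j + n + 1), A k • X ^ k := by
  induction n with
  | zero =>
    rw [add_zero, ← abel A j j le_rfl, sum_range_succ, if_neg (lt_irrefl j)]
    congr 1
    exact sum_congr rfl fun k hk => by rw [if_pos (mem_range.1 hk)]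
  | succ n ih =>
    rw [← add_assoc, sum_range_succ, ih, sum_range_succ _ (j + n + 1), if_neg (by omega), P,
      if_neg (by omega)]

lemma sub (j : ℕ) : MS (P j) ⊆ MS fun k => X ^ k := by
  intro γ hγ n a hf
  set f : ℝ[X] := ∑ k ∈ range (n + 1), a k • X ^ k with hf'
  have cf : ∀ k, f.coeff k = if k < n + 1 then a k else 0 := fun k => by simp [hf', coeff_X_pow]
  let b : ℝ → ℕ → ℝ := fun s k => if k < j then f.coeff k * s ^ k - f.coeff (k + 1) * s ^ (k + 1)
    else f.coeff k * s ^ k
  let G : ℝ → ℝ[X] := fun s => (∑ k ∈ range (j + n + 1), (b s k * γ k) • P j k).comp (C s⁻¹ * X)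
  have cG : ∀ s i, (G s).coeff i = (∑ k ∈ range (j + n + 1),
      if i = k ∨ (i ≤ k ∧ k ≤ j) then b s k * γ k else 0) * s⁻¹ ^ i := fun s i => by
    simp only [G, comp_C_mul_X_coeff, coeff_sum]
  refine Pool.Agent.H28.Schur.RR_lim (𝓝[>] (0 : ℝ)) G _ (j + n)
    (fun s => natDegree_le_iff_coeff_eq_zero.2 fun i hi => ?_) (fun i => ?_) ?_
  · rw [cG, sum_eq_zero fun k hk => if_neg (by have := mem_range.1 hk; omega), zero_mul]
  · have : Tendsto (fun s : ℝ => ∑ k ∈ range (j + n + 1), if i = k ∨ (i ≤ k ∧ k ≤ j) then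
        (if k < j then f.coeff k * s ^ (k - i) - f.coeff (k + 1) * s ^ (k + 1 - i)
          else f.coeff k * s ^ (k - i)) * γ k else 0) (𝓝[>] 0)
        (𝓝 (∑ k ∈ range (j + n + 1), if i = k then f.coeff k * γ k else 0)) := by
      refine tendsto_finset_sum _ fun k _ => tendsto_nhdsWithin_of_tendsto_nhds
        (Continuous.tendsto' ?_ _ _ ?_)
      · split_ifs <;> fun_prop
      · rcases eq_or_ne i k with rfl | h
        · simp
        · rw [if_neg h]; split_ifs with h1 h2
          · rw [zero_pow (by omega), zero_pow (by omega)]; simp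
          · rw [zero_pow (by omega)]; simp
          · rfl
    have e : (∑ k ∈ range (j + n + 1), if i = k then f.coeff k * γ k else 0) =
        (∑ k ∈ range (n + 1), (a k * γ k) • (X ^ k : ℝ[X])).coeff i := by
      simp only [sum_ite_eq, mem_range, cf, finset_sum_coeff, coeff_smul, coeff_X_pow, smul_eq_mul,
        mul_ite, mul_one, mul_zero]
      split_ifs <;> first | rfl | omega | simp
    rw [← e]
    refine this.congr' ?_
    filter_upwards [self_mem_nhdsWithin] with s (hs : 0 < s)
    rw [cG, sum_mul]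
    refine sum_congr rfl fun k _ => ?_
    simp only [b]
    split_ifs with h1 h2
    · rw [pow_sub₀ _ hs.ne' (by omega), pow_sub₀ _ hs.ne' (by omega), inv_pow]; ring
    · rw [pow_sub₀ _ hs.ne' (by omega), inv_pow]; ring
    · simp
  · filter_upwards [self_mem_nhdsWithin] with s (hs : 0 < s)
    refine scale _ (hγ _ _ ?_) _ (inv_ne_zero hs.ne')
    have : ∑ k ∈ range (j + n + 1), (f.coeff k * s ^ k) • (X ^ k : ℝ[X]) = f.comp (C s * X) := by
      ext i
      simp only [finset_sum_coeff, coeff_smul, coeff_X_pow, smul_eq_mul, mul_ite, mul_one,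
        mul_zero, sum_ite_eq, mem_range, comp_C_mul_X_coeff]
      split_ifs with h
      · rfl
      · rw [cf, if_neg (by omega), zero_mul]
    rw [expand (fun k => f.coeff k * s ^ k), this]
    exact scale f hf s hs.ne'

lemma RR_pow (c : ℝ) (m : ℕ) : RealRooted (c • X ^ m) := by
  rcases eq_or_ne c 0 with rfl | hc
  · left; simp
  · right; intro z hz
    simp [hc] at hz; simp [hz.1]

lemma ne (i j : ℕ) (hj : 1 ≤ j) (h : j < i) : MS (P i) ≠ MS (P j) := by
  intro e
  have h1 : (fun k => if k = j + 1 then (1 : ℝ) else 0) ∈ MS (P j) := fun n a _ => by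
    simp only [mul_ite, mul_one, mul_zero, ite_smul, zero_smul, sum_ite_eq']
    split_ifs
    · rw [P, if_neg (by omega)]; exact RR_pow _ _
    · exact Or.inl rfl
  rw [← e] at h1
  have := h1 (j + 1) (fun k => if k = j + 1 then 1 else if k = j then -1 else 0) (by
    rw [sum_range_succ, sum_range_succ, sum_eq_zero fun k hk => by
      have := mem_range.1 hk
      rw [if_neg (by omega), if_neg (by omega), zero_smul]]
    simpa [P, h.le, show j + 1 ≤ i from h, sum_range_succ _ (j + 1)] using RR_pow 1 (j + 1))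
  simp only [mul_ite, mul_one, mul_zero, ite_smul, zero_smul, sum_ite_eq', mem_range,
    lt_add_one, if_true, P, if_pos (show j + 1 ≤ i from h)] at this
  exact geom (j + 1) (by omega) 1 one_ne_zero this

theorem result : (∀ j k, (P j k).degree = k) ∧
    (∀ i j, 1 ≤ i → 1 ≤ j → i ≠ j → MS (P i) ≠ MS (P j)) ∧
    (⋃ j ≥ 1, MS (P j)) ⊂ MS fun k => X ^ k := by
  refine ⟨fun j k => degree_eq_of_le_of_coeff_ne_zero ((degree_le_iff_coeff_zero _ _).2
    fun m hm => ?_) (by simp [coeff_P]), fun i j hi hj h => ?_,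
    Set.iUnion₂_subset fun j _ => sub j, fun h => ?_⟩
  · have : k < m := by exact_mod_cast hm
    rw [coeff_P, if_neg (by omega)]
  · rcases h.lt_or_gt with h | h
    exacts [(ne j i hi h).symm, ne i j hj h]
  have h2 : (fun k => (2 : ℝ) ^ k) ∈ MS fun k => X ^ k := fun n a ha => by
    have := scale _ ha 2 two_ne_zero
    simpa [smul_eq_C_mul, mul_pow, mul_assoc] using this
  obtain ⟨j, hj, hγ⟩ := Set.mem_iUnion₂.1 (h h2)
  rcases (show j = 1 ∨ 2 ≤ j by omega) with rfl | hj
  · refine quad _ 4 4 3 ?_ (by norm_num) (hγ 2 (fun k => if k = 0 then -1 else if k = 1 then 2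
      else 1) (Or.inr fun z hz => ?_))
    · apply Polynomial.funext; intro x; simp [sum_range_succ, P]; ring
    · simp [sum_range_succ, P] at hz
      have : (z + 1) ^ 2 = 0 := by linear_combination hz
      simp [eq_neg_of_add_eq_zero_left (pow_eq_zero_iff two_ne_zero |>.1 this)]
  · refine quad _ 4 2 2 ?_ (by norm_num) (hγ 2 (fun k => if k = 0 then 0 else if k = 1 then -1
      else 1) (Or.inr fun z hz => ?_))
    · apply Polynomial.funext; intro x
      simp [sum_range_succ, P, hj, show 1 ≤ j by omega]; ring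
    · simp [sum_range_succ, P, hj, show 1 ≤ j by omega] at hz
      have : z ^ 2 = 0 := by linear_combination hz
      simp [pow_eq_zero_iff two_ne_zero |>.1 this]

end Pool.Agent.Results.MP_5f9057_an.Distinct
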